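import Mathlib

namespace Pool.Agent.N613.ET

open Relation

/-- An ET0L system whose terminal letters are named by `α`: finitely many letters `S`, a finite
nonempty family of tables, each a finite substitution with nonempty values, a nonempty axiom, and
an injection of the terminal names into the letters. -/
structure Sys (α : Type) where
  S : Type
  finS : Finite S
  H : Type
  finH : Finite H
  neH : Nonempty H
  tab : H → S → Set (List S)
  tabFinite : ∀ h c, (tab h c).Finite
  tabNonempty : ∀ h c, (tab h c).Nonempty
  ax : List S
  axNonempty : ax ≠ []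
  term : α → S
  termInj : Function.Injective term

/-- `Sub f x y`: the word `y` is obtained from `x` by replacing every occurrence of every letter
`c`, independently, by a word of `f c`. -/
inductive Sub {S : Type} (f : S → Set (List S)) : List S → List S → Prop
  | nil : Sub f [] []
  | cons {c : S} {u x y : List S} : u ∈ f c → Sub f x y → Sub f (c :: x) (u ++ y)

/-- One derivation step: rewrite the whole word with one of the tables. -/
def Step {α : Type} (G : Sys α) (x y : List G.S) : Prop := ∃ h : G.H, Sub (G.tab h) x y

/-- The language of the system: the terminal words derivable from the axiom. -/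
def lang {α : Type} (G : Sys α) : Set (List α) :=
  {w | ReflTransGen (Step G) G.ax (w.map G.term)}

/-- Every table rewrites at most `k` letters into something other than themselves. -/
def Restr {α : Type} (k : ℕ) (G : Sys α) : Prop :=
  ∀ h : G.H, {c : G.S | G.tab h c ≠ {[c]}}.encard ≤ k

/-- The languages over `α` generated by `k`-restricted systems. -/
def Fam (k : ℕ) (α : Type) : Set (Set (List α)) := {L | ∃ G : Sys α, Restr k G ∧ lang G = L}

/-! Substitutions -/

section
variable {S : Type} {f : S → Set (List S)}

theorem Sub.append {x₁ x₂ y₁ y₂ : List S} (h₁ : Sub f x₁ y₁) (h₂ : Sub f x₂ y₂) :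
    Sub f (x₁ ++ x₂) (y₁ ++ y₂) := by
  induction h₁ with
  | nil => simpa using h₂
  | cons hu _ ih => rw [List.cons_append, List.append_assoc]; exact Sub.cons hu ih

theorem Sub.split {x₁ x₂ y : List S} (h : Sub f (x₁ ++ x₂) y) :
    ∃ y₁ y₂, y = y₁ ++ y₂ ∧ Sub f x₁ y₁ ∧ Sub f x₂ y₂ := by
  induction x₁ generalizing y with
  | nil => exact ⟨[], y, by simp, Sub.nil, by simpa using h⟩
  | cons c x ih =>
    rw [List.cons_append] at h
    cases h with
    | cons hu h' =>
      obtain ⟨y₁, y₂, rfl, h1, h2⟩ := ih h'
      exact ⟨_ ++ y₁, y₂, by simp, Sub.cons hu h1, h2⟩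

/-- A substitution that is single valued on the letters of a word. -/
theorem Sub.det {g : S → List S} {x y : List S} (hg : ∀ c ∈ x, f c = {g c}) (h : Sub f x y) :
    y = x.flatMap g := by
  induction h with
  | nil => simp
  | cons hu _ ih =>
    rw [hg _ (by simp)] at hu
    rw [List.flatMap_cons, ← ih (fun c hc => hg c (by simp [hc]))]
    simp only [Set.mem_singleton_iff] at hu
    rw [hu]

theorem Sub.ofDet {g : S → List S} {x : List S} (hg : ∀ c ∈ x, g c ∈ f c) :
    Sub f x (x.flatMap g) := by
  induction x with
  | nil => simpa using Sub.nil
  | cons c x ih =>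
    rw [List.flatMap_cons]
    exact Sub.cons (hg c (by simp)) (ih fun c hc => hg c (by simp [hc]))

theorem Sub.mem {x y : List S} (h : Sub f x y) {c d : S} (hc : c ∈ x) (hf : f c = {[d]}) :
    d ∈ y := by
  induction h with
  | nil => simp at hc
  | cons hu _ ih =>
    rcases List.mem_cons.1 hc with rfl | hc
    · rw [hf] at hu
      simp only [Set.mem_singleton_iff] at hu
      simp [hu]
    · simp [ih hc]

end

/-! The three-restricted system -/

/-- States of the control. -/
inductive Ctl (H S : Type) : Type
  | start : Ctl H S
  | one (h : H) (P : Finset S) : Ctl H S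
  | two (P : Finset S) : Ctl H S
  | three (P : Finset S) : Ctl H S

/-- Letters of the new system. -/
inductive Ltr (H S : Type) : Type
  | x (c : S) : Ltr H S
  | y (c : S) : Ltr H S
  | z (c : S) : Ltr H S
  | k (v : Ctl H S) : Ltr H S
  | d : Ltr H S

/-- Operations on the letters that carry the derived word. -/
inductive Op (H S : Type) : Type
  | nop : Op H S
  | a (h : H) (c : S) : Op H S
  | b (c : S) : Op H S
  | e (c : S) : Op H S

section
variable {H S : Type}

instance [Finite H] [Finite S] : Finite (Ctl H S) := by
  classical
  have := Fintype.ofFinite S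
  have := Fintype.ofFinite H
  let φ : Ctl H S → Option ((H × Finset S) ⊕ (Finset S ⊕ Finset S)) := fun v => match v with
    | .start => none
    | .one h P => some (Sum.inl (h, P))
    | .two P => some (Sum.inr (Sum.inl P))
    | .three P => some (Sum.inr (Sum.inr P))
  refine Finite.of_injective φ ?_
  intro u v huv
  cases u <;> cases v <;> simp_all [φ]

instance [Finite H] [Finite S] : Finite (Ltr H S) := by
  let φ : Ltr H S → Option ((S ⊕ S) ⊕ (S ⊕ Ctl H S)) := fun v => match v with
    | .x c => some (Sum.inl (Sum.inl c))
    | .y c => some (Sum.inl (Sum.inr c))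
    | .z c => some (Sum.inr (Sum.inl c))
    | .k v => some (Sum.inr (Sum.inr v))
    | .d => none
  refine Finite.of_injective φ ?_
  intro u v huv
  cases u <;> cases v <;> simp_all [φ]

instance [Finite H] [Finite S] : Finite (Op H S) := by
  let φ : Op H S → Option ((H × S) ⊕ (S ⊕ S)) := fun v => match v with
    | .nop => none
    | .a h c => some (Sum.inl (h, c))
    | .b c => some (Sum.inr (Sum.inl c))
    | .e c => some (Sum.inr (Sum.inr c))
  refine Finite.of_injective φ ?_
  intro u v huv
  cases u <;> cases v <;> simp_all [φ]

end

end Pool.Agent.N613.ET
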