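import Pool.Agent.N613.ET.Basic

namespace Pool.Agent.N613.ET

open Relation Classical

noncomputable section

section
variable {H S : Type} [Fintype S]

/-- The moves of the control. -/
inductive Edge : Ctl H S → Ctl H S → Op H S → Prop
  | s1 (h : H) : Edge .start (.one h ∅) .nop
  | s2 (h : H) (P : Finset S) (c : S) (hc : c ∉ P) : Edge (.one h P) (.one h (insert c P)) (.a h c)
  | s3 (h : H) : Edge (.one h Finset.univ) (.two ∅) .nop
  | s4 (P : Finset S) (c : S) (hc : c ∉ P) : Edge (.two P) (.two (insert c P)) (.b c)
  | s5 : Edge (.two Finset.univ) .start .nop
  | s6 : Edge .start (.three ∅) .nop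
  | s7 (P : Finset S) (c : S) (hc : c ∉ P) : Edge (.three P) (.three (insert c P)) (.e c)

theorem Edge.ne {v v' : Ctl H S} {o : Op H S} (h : Edge v v' o) : v ≠ v' := by
  cases h with
  | s1 h => simp
  | s2 h P c hc =>
    intro hh
    simp only [Ctl.one.injEq, true_and] at hh
    exact hc (hh ▸ Finset.mem_insert_self c P)
  | s3 h => simp
  | s4 P c hc =>
    intro hh
    simp only [Ctl.two.injEq] at hh
    exact hc (hh ▸ Finset.mem_insert_self c P)
  | s5 => simp
  | s6 => simp
  | s7 P c hc =>
    intro hh
    simp only [Ctl.three.injEq] at hh
    exact hc (hh ▸ Finset.mem_insert_self c P)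

/-- Effect of an operation on a letter of the derived word. -/
def opSub (tab : H → S → Set (List S)) (o : Op H S) : Ltr H S → Set (List (Ltr H S))
  | .x c => match o with
    | .a h c' => if c = c' then (fun u => u.map Ltr.y) '' tab h c else {[.x c]}
    | .e c' => if c = c' then {[.z c]} else {[.x c]}
    | .nop => {[.x c]}
    | .b _ => {[.x c]}
  | .y c => match o with
    | .b c' => if c = c' then {[.x c]} else {[.y c]}
    | .a _ _ => {[.y c]}
    | .e _ => {[.y c]}
    | .nop => {[.y c]}
  | .z c => {[.z c]}
  | .k v => {[.k v]}
  | .d => {[.d]}

/-- The table of a move of the control. -/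
def edgeTab (tab : H → S → Set (List S)) (v v' : Ctl H S) (o : Op H S) :
    Ltr H S → Set (List (Ltr H S))
  | .k w => if w = v' then {[.k v]} else if w = v then {[.d]} else {[.k w]}
  | .x c => opSub tab o (.x c)
  | .y c => opSub tab o (.y c)
  | .z c => {[.z c]}
  | .d => {[.d]}

/-- The table that erases a control letter. -/
def eraseTab (v : Ctl H S) : Ltr H S → Set (List (Ltr H S))
  | .k w => if w = .three Finset.univ then {[.d]} else if w = v then {[]} else {[.k w]}
  | .x c => {[.x c]}
  | .y c => {[.y c]}
  | .z c => {[.z c]}
  | .d => {[.d]}

/-- All tables. -/
def newTab (tab : H → S → Set (List S)) :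
    ((Ctl H S × Ctl H S) × Op H S) ⊕ Ctl H S → Ltr H S → Set (List (Ltr H S))
  | .inl p => if Edge p.1.1 p.1.2 p.2 then edgeTab tab p.1.1 p.1.2 p.2 else fun l => {[l]}
  | .inr v => eraseTab v

theorem opSub_nonempty {tab : H → S → Set (List S)} (ht : ∀ h c, (tab h c).Nonempty)
    (o : Op H S) (l : Ltr H S) : (opSub tab o l).Nonempty := by
  cases l with
  | x c =>
    cases o with
    | a h c' =>
      simp only [opSub]; split_ifs
      · exact (ht h c).image _
      · exact Set.singleton_nonempty _
    | e c' => simp only [opSub]; split_ifs <;> exact Set.singleton_nonempty _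
    | nop => exact Set.singleton_nonempty _
    | b c' => exact Set.singleton_nonempty _
  | y c =>
    cases o with
    | b c' => simp only [opSub]; split_ifs <;> exact Set.singleton_nonempty _
    | a h c' => exact Set.singleton_nonempty _
    | e c' => exact Set.singleton_nonempty _
    | nop => exact Set.singleton_nonempty _
  | z c => exact Set.singleton_nonempty _
  | k v => exact Set.singleton_nonempty _
  | d => exact Set.singleton_nonempty _

theorem opSub_finite {tab : H → S → Set (List S)} (ht : ∀ h c, (tab h c).Finite)
    (o : Op H S) (l : Ltr H S) : (opSub tab o l).Finite := by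
  cases l with
  | x c =>
    cases o with
    | a h c' =>
      simp only [opSub]; split_ifs
      · exact (ht h c).image _
      · exact Set.finite_singleton _
    | e c' => simp only [opSub]; split_ifs <;> exact Set.finite_singleton _
    | nop => exact Set.finite_singleton _
    | b c' => exact Set.finite_singleton _
  | y c =>
    cases o with
    | b c' => simp only [opSub]; split_ifs <;> exact Set.finite_singleton _
    | a h c' => exact Set.finite_singleton _
    | e c' => exact Set.finite_singleton _
    | nop => exact Set.finite_singleton _
  | z c => exact Set.finite_singleton _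
  | k v => exact Set.finite_singleton _
  | d => exact Set.finite_singleton _

theorem edgeTab_nonempty {tab : H → S → Set (List S)} (ht : ∀ h c, (tab h c).Nonempty)
    (v v' : Ctl H S) (o : Op H S) (l : Ltr H S) : (edgeTab tab v v' o l).Nonempty := by
  cases l with
  | x c => exact opSub_nonempty ht o (.x c)
  | y c => exact opSub_nonempty ht o (.y c)
  | z c => exact Set.singleton_nonempty _
  | k w => simp only [edgeTab]; split_ifs <;> exact Set.singleton_nonempty _
  | d => exact Set.singleton_nonempty _

theorem edgeTab_finite {tab : H → S → Set (List S)} (ht : ∀ h c, (tab h c).Finite)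
    (v v' : Ctl H S) (o : Op H S) (l : Ltr H S) : (edgeTab tab v v' o l).Finite := by
  cases l with
  | x c => exact opSub_finite ht o (.x c)
  | y c => exact opSub_finite ht o (.y c)
  | z c => exact Set.finite_singleton _
  | k w => simp only [edgeTab]; split_ifs <;> exact Set.finite_singleton _
  | d => exact Set.finite_singleton _

/-- The letter (other than the control letters) on which an operation acts. -/
def opLtr : Op H S → Ltr H S
  | .nop => .d
  | .a _ c => .x c
  | .b c => .y c
  | .e c => .x c

theorem newTab_restr (tab : H → S → Set (List S)) (p : ((Ctl H S × Ctl H S) × Op H S) ⊕ Ctl H S) :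
    {l | newTab tab p l ≠ {[l]}}.encard ≤ (3 : ℕ) := by
  cases p with
  | inr v =>
    have : {l | newTab tab (Sum.inr v) l ≠ {[l]}} ⊆
        ({Ltr.k (.three Finset.univ), Ltr.k v, Ltr.d} : Set (Ltr H S)) := by
      intro l hl
      simp only [Set.mem_setOf_eq, newTab] at hl
      cases l with
      | x c => exact absurd rfl hl
      | y c => exact absurd rfl hl
      | z c => exact absurd rfl hl
      | d => simp
      | k w =>
        simp only [eraseTab] at hl
        split_ifs at hl with h1 h2
        · simp [h1]
        · simp [h2]
        · exact absurd rfl hl
    refine (Set.encard_le_encard this).trans ?_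
    refine (Set.encard_insert_le _ _).trans ?_
    refine (add_le_add_left (Set.encard_insert_le _ _) _).trans ?_
    rw [Set.encard_singleton]
    norm_num
  | inl p =>
    obtain ⟨⟨v, v'⟩, o⟩ := p
    by_cases hE : Edge v v' o
    swap
    · have : {l | newTab tab (Sum.inl ((v, v'), o)) l ≠ {[l]}} = ∅ := by
        ext l; simp [newTab, hE]
      rw [this]; simp
    have : {l | newTab tab (Sum.inl ((v, v'), o)) l ≠ {[l]}} ⊆
        ({Ltr.k v, Ltr.k v', opLtr o} : Set (Ltr H S)) := by
      intro l hl
      simp only [Set.mem_setOf_eq, newTab, if_pos hE] at hl
      cases l with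
      | z c => exact absurd rfl hl
      | d => exact absurd rfl hl
      | k w =>
        simp only [edgeTab] at hl
        split_ifs at hl with h1 h2
        · simp [h1]
        · simp [h2]
        · exact absurd rfl hl
      | x c =>
        cases o with
        | nop => exact absurd rfl hl
        | b c' => exact absurd rfl hl
        | a h c' =>
          simp only [edgeTab, opSub] at hl
          split_ifs at hl with h1
          · simp [h1, opLtr]
          · exact absurd rfl hl
        | e c' =>
          simp only [edgeTab, opSub] at hl
          split_ifs at hl with h1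
          · simp [h1, opLtr]
          · exact absurd rfl hl
      | y c =>
        cases o with
        | nop => exact absurd rfl hl
        | a h c' => exact absurd rfl hl
        | e c' => exact absurd rfl hl
        | b c' =>
          simp only [edgeTab, opSub] at hl
          split_ifs at hl with h1
          · simp [h1, opLtr]
          · exact absurd rfl hl
    refine (Set.encard_le_encard this).trans ?_
    refine (Set.encard_insert_le _ _).trans ?_
    refine (add_le_add_left (Set.encard_insert_le _ _) _).trans ?_
    rw [Set.encard_singleton]
    norm_num

end

/-- The three-restricted system that simulates `G`. -/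
def sim {α : Type} (G : Sys α) : Sys α :=
  haveI := G.finS
  haveI := G.finH
  letI := Fintype.ofFinite G.S
  letI := Fintype.ofFinite (Ctl G.H G.S)
  { S := Ltr G.H G.S
    finS := inferInstance
    H := ((Ctl G.H G.S × Ctl G.H G.S) × Op G.H G.S) ⊕ Ctl G.H G.S
    finH := inferInstance
    neH := ⟨Sum.inr .start⟩
    tab := newTab G.tab
    tabFinite := by
      intro h c
      cases h with
      | inr v =>
        cases c with
        | k w => simp only [newTab, eraseTab]; split_ifs <;> exact Set.finite_singleton _
        | x c => exact Set.finite_singleton _
        | y c => exact Set.finite_singleton _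
        | z c => exact Set.finite_singleton _
        | d => exact Set.finite_singleton _
      | inl p =>
        simp only [newTab]
        split_ifs
        · exact edgeTab_finite G.tabFinite _ _ _ _
        · exact Set.finite_singleton _
    tabNonempty := by
      intro h c
      cases h with
      | inr v =>
        cases c with
        | k w => simp only [newTab, eraseTab]; split_ifs <;> exact Set.singleton_nonempty _
        | x c => exact Set.singleton_nonempty _
        | y c => exact Set.singleton_nonempty _
        | z c => exact Set.singleton_nonempty _
        | d => exact Set.singleton_nonempty _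
      | inl p =>
        simp only [newTab]
        split_ifs
        · exact edgeTab_nonempty G.tabNonempty _ _ _ _
        · exact Set.singleton_nonempty _
    ax := G.ax.map Ltr.x ++ ((Finset.univ.erase (Ctl.start : Ctl G.H G.S)).toList.map Ltr.k)
    axNonempty := by
      intro h
      simp only [List.append_eq_nil_iff, List.map_eq_nil_iff] at h
      exact G.axNonempty h.1
    term := fun a => Ltr.z (G.term a)
    termInj := by
      intro a b hab
      simp only [Ltr.z.injEq] at hab
      exact G.termInj hab }

end

end Pool.Agent.N613.ET
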