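import Pool.Agent.N613.ET.Sound

namespace Pool.Agent.N613.ET

open Relation Classical

noncomputable section

section
variable {H S : Type} [Fintype S]

/-- One step of the new system. -/
def NStep (tab : H → S → Set (List S)) (x y : List (Ltr H S)) : Prop :=
  ∃ p, Sub (newTab tab p) x y

/-- The carrier `C` together with the control letters for the state `v` is derivable. -/
def Good (tab : H → S → Set (List S)) (A : List (Ltr H S)) (v : Ctl H S)
    (C : List (Ltr H S)) : Prop :=
  ∃ l : List (Ctl H S), (∀ u, u ∈ l ↔ u ≠ v) ∧
    ReflTransGen (NStep tab) A (C ++ l.map Ltr.k)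

theorem Sub.flat {S T : Type} {f : S → Set (List S)} {g g' : T → List S} {z : List T}
    (h : ∀ p ∈ z, Sub f (g p) (g' p)) : Sub f (z.flatMap g) (z.flatMap g') := by
  induction z with
  | nil => exact Sub.nil
  | cons a z ih =>
    rw [List.flatMap_cons, List.flatMap_cons]
    exact (h a (by simp)).append (ih fun p hp => h p (by simp [hp]))

theorem Sub.one {S : Type} {f : S → Set (List S)} {c : S} {u : List S} (h : u ∈ f c) :
    Sub f [c] u := by
  have := Sub.cons h Sub.nil
  simpa using this

theorem Good.move {tab : H → S → Set (List S)} {A : List (Ltr H S)} {v v' : Ctl H S}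
    {o : Op H S} {C C' : List (Ltr H S)} (hE : Edge v v' o) (hG : Good tab A v C)
    (hs : Sub (edgeTab tab v v' o) C C') : Good tab A v' C' := by
  obtain ⟨l, hl, hr⟩ := hG
  refine ⟨l.map (fun w => if w = v' then v else w), ?_, hr.tail ⟨Sum.inl ((v, v'), o), ?_⟩⟩
  · intro u
    rw [List.mem_map]
    constructor
    · rintro ⟨a, ha, rfl⟩
      split_ifs with h
      · exact hE.ne
      · exact h
    · intro hu
      by_cases huv : u = v
      · refine ⟨v', (hl _).2 hE.ne.symm, ?_⟩
        simp [huv]
      · refine ⟨u, (hl _).2 huv, ?_⟩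
        simp [hu]
  · simp only [newTab, if_pos hE]
    refine hs.append ?_
    rw [List.map_map]
    refine Sub.ofMap ?_
    intro a ha
    have ha' := (hl a).1 ha
    by_cases hav : a = v'
    · simp [edgeTab, hav]
    · simp [edgeTab, hav, ha']

theorem good_one {tab : H → S → Set (List S)} {A : List (Ltr H S)} {h : H}
    {zs : List (S × List S)} (hzs : ∀ p ∈ zs, p.2 ∈ tab h p.1)
    (hG : Good tab A .start ((zs.map Prod.fst).map Ltr.x)) (P : Finset S) :
    Good tab A (.one h P)
      (zs.flatMap (fun p => if p.1 ∈ P then p.2.map Ltr.y else [Ltr.x p.1])) := by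
  induction P using Finset.induction_on with
  | empty =>
    refine hG.move (Edge.s1 h) ?_
    have : (zs.flatMap (fun p => if p.1 ∈ (∅ : Finset S) then p.2.map Ltr.y else [Ltr.x p.1]) :
        List (Ltr H S)) = (zs.map Prod.fst).map Ltr.x := by
      clear hG hzs
      induction zs with
      | nil => simp
      | cons a zs ih => simp at ih ⊢; exact ih
    rw [this]
    refine Sub.ofMap ?_
    intro a _
    simp [edgeTab, opSub]
  | insert c P hc ih =>
    refine ih.move (Edge.s2 h P c hc) (Sub.flat ?_)
    intro p hp
    by_cases hpP : p.1 ∈ P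
    · simp only [hpP, if_true, Finset.mem_insert, or_true]
      refine Sub.ofMap ?_
      intro a _
      simp [edgeTab, opSub]
    · by_cases hpc : p.1 = c
      · simp only [hpc, Finset.mem_insert, true_or, if_true, hc, if_false]
        refine Sub.one ?_
        simp only [edgeTab, opSub, if_true]
        exact ⟨p.2, hpc ▸ hzs p hp, rfl⟩
      · simp only [hpP, hpc, Finset.mem_insert, or_false, if_false]
        refine Sub.one ?_
        simp [edgeTab, opSub, hpc]

theorem good_two {tab : H → S → Set (List S)} {A : List (Ltr H S)} {h : H}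
    {z : List S} (hG : Good tab A (.one h Finset.univ) (z.map Ltr.y)) (P : Finset S) :
    Good tab A (.two P) (z.map (fun c => if c ∈ P then Ltr.x c else Ltr.y c)) := by
  induction P using Finset.induction_on with
  | empty =>
    refine hG.move (Edge.s3 h) ?_
    refine Sub.ofMap ?_
    intro a _
    simp [edgeTab, opSub]
  | insert c P hc ih =>
    refine ih.move (Edge.s4 P c hc) (Sub.ofMap ?_)
    intro a _
    by_cases haP : a ∈ P
    · simp [haP, edgeTab, opSub]
    · by_cases hac : a = c
      · simp [hac, hc, edgeTab, opSub]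
      · simp [haP, hac, edgeTab, opSub]

theorem good_three {tab : H → S → Set (List S)} {A : List (Ltr H S)}
    {z : List S} (hG : Good tab A .start (z.map Ltr.x)) (P : Finset S) :
    Good tab A (.three P) (z.map (fun c => if c ∈ P then Ltr.z c else Ltr.x c)) := by
  induction P using Finset.induction_on with
  | empty =>
    refine hG.move Edge.s6 ?_
    refine Sub.ofMap ?_
    intro a _
    simp [edgeTab, opSub]
  | insert c P hc ih =>
    refine ih.move (Edge.s7 P c hc) (Sub.ofMap ?_)
    intro a _
    by_cases haP : a ∈ P
    · simp [haP, edgeTab]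
    · by_cases hac : a = c
      · simp [hac, hc, edgeTab, opSub]
      · simp [haP, hac, edgeTab, opSub]

theorem good_step {tab : H → S → Set (List S)} {A : List (Ltr H S)} {h : H}
    {z z' : List S} (hG : Good tab A .start (z.map Ltr.x)) (hs : Sub (tab h) z z') :
    Good tab A .start (z'.map Ltr.x) := by
  obtain ⟨zs, h1, h2, h3⟩ := hs.toPairs
  rw [h2] at hG
  have h4 := good_one h1 hG Finset.univ
  have h5 : (zs.flatMap (fun p => if p.1 ∈ (Finset.univ : Finset S) then p.2.map Ltr.y
      else [Ltr.x p.1]) : List (Ltr H S)) = z'.map Ltr.y := by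
    rw [h3, List.map_flatMap]
    simp
  rw [h5] at h4
  refine (good_two h4 Finset.univ).move Edge.s5 (Sub.ofMap ?_)
  intro a _
  simp [edgeTab, opSub]

theorem erase_sub (v : Ctl H S) (l : List (Ctl H S)) (hl : Ctl.three Finset.univ ∉ l) :
    Sub (eraseTab v) (l.map Ltr.k) ((l.filter (fun w => w ≠ v)).map Ltr.k) := by
  induction l with
  | nil => exact Sub.nil
  | cons a l ih =>
    have h1 : a ≠ Ctl.three Finset.univ := fun h => hl (by simp [h])
    have ih := ih (fun h => hl (by simp [h]))
    by_cases hav : a = v
    · have h1' : v ≠ Ctl.three Finset.univ := hav ▸ h1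
      have h2 : ([] : List (Ltr H S)) ∈ eraseTab v (Ltr.k a) := by
        simp [eraseTab, h1', hav]
      have := Sub.cons h2 ih
      rw [List.map_cons]
      rw [List.filter_cons_of_neg (by simp [hav])]
      simpa using this
    · have h2 : ([Ltr.k a] : List (Ltr H S)) ∈ eraseTab v (Ltr.k a) := by
        simp [eraseTab, h1, hav]
      have := Sub.cons h2 ih
      rw [List.map_cons]
      rw [List.filter_cons_of_pos (by simp [hav])]
      simpa using this

theorem erase_all {tab : H → S → Set (List S)} (z : List S) (n : ℕ) :
    ∀ l : List (Ctl H S), l.length ≤ n → Ctl.three Finset.univ ∉ l →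
    ReflTransGen (NStep tab) (z.map Ltr.z ++ l.map Ltr.k) (z.map Ltr.z) := by
  induction n with
  | zero =>
    intro l hl _
    have : l = [] := List.length_eq_zero_iff.1 (by omega)
    rw [this]; simp
    exact ReflTransGen.refl
  | succ n ih =>
    intro l hl hn
    cases l with
    | nil => simp; exact ReflTransGen.refl
    | cons a l =>
      have h1 := erase_sub a (a :: l) hn
      have h2 : (a :: l).filter (fun w => w ≠ a) = l.filter (fun w => w ≠ a) :=
        List.filter_cons_of_neg (by simp)
      have h3 : ((a :: l).filter (fun w => w ≠ a)).length ≤ n := by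
        rw [h2]
        have := List.length_filter_le (fun w => decide (w ≠ a)) l
        simp only [List.length_cons] at hl
        omega
      have h4 : Ctl.three Finset.univ ∉ (a :: l).filter (fun w => w ≠ a) :=
        fun h => hn (List.mem_of_mem_filter h)
      refine ReflTransGen.head ⟨Sum.inr a, ?_⟩ (ih _ h3 h4)
      refine Sub.append (Sub.ofMap ?_) h1
      intro b _
      simp [newTab, eraseTab]

theorem good_final {tab : H → S → Set (List S)} {A : List (Ltr H S)}
    {z : List S} (hG : Good tab A .start (z.map Ltr.x)) :
    ReflTransGen (NStep tab) A (z.map Ltr.z) := by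
  have h1 := good_three hG Finset.univ
  obtain ⟨l, hl, hr⟩ := h1
  have h2 : (z.map (fun c => if c ∈ (Finset.univ : Finset S) then Ltr.z c else Ltr.x c) :
      List (Ltr H S)) = z.map Ltr.z := by simp
  rw [h2] at hr
  exact hr.trans (erase_all z l.length l le_rfl (fun h => (hl _).1 h rfl))

theorem good_reach {tab : H → S → Set (List S)} {A : List (Ltr H S)}
    {a z : List S} (hG : Good tab A .start (a.map Ltr.x))
    (hr : ReflTransGen (fun x y => ∃ h, Sub (tab h) x y) a z) :
    Good tab A .start (z.map Ltr.x) := by
  induction hr with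
  | refl => exact hG
  | tail _ h ih =>
    obtain ⟨h, hs⟩ := h
    exact good_step ih hs

theorem inv_reach {tab : H → S → Set (List S)} (ht : ∀ h c, (tab h c).Nonempty)
    {R : List S → Prop} (hR : ∀ z z' h, R z → Sub (tab h) z z' → R z')
    {A W : List (Ltr H S)} (hI : Inv tab R A) (hr : ReflTransGen (NStep tab) A W) :
    Inv tab R W := by
  induction hr with
  | refl => exact hI
  | tail _ h ih =>
    obtain ⟨p, hs⟩ := h
    exact Inv.step ht hR ih hs

end

/-- The new system generates the same language. -/
theorem sim_lang {α : Type} (G : Sys α) : lang (sim G) = lang G := by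
  haveI := G.finS
  haveI := G.finH
  letI := Fintype.ofFinite G.S
  letI := Fintype.ofFinite (Ctl G.H G.S)
  ext w
  have key : w ∈ lang (sim G) ↔ ReflTransGen (NStep G.tab)
      (G.ax.map Ltr.x ++ ((Finset.univ.erase (Ctl.start : Ctl G.H G.S)).toList.map Ltr.k))
      ((w.map G.term).map Ltr.z) := by
    rw [List.map_map]
    exact Iff.rfl
  rw [key]
  constructor
  · intro h
    refine Inv.final (tab := G.tab) (R := fun z => ReflTransGen (Step G) G.ax z)
      (inv_reach G.tabNonempty ?_ ?_ h)
    · intro z z' h hz hs
      exact hz.tail ⟨h, hs⟩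
    · refine Or.inr (Or.inl ⟨.start, G.ax, _, _, rfl, ReflTransGen.refl, rfl, ?_⟩)
      intro u
      simp
  · intro h
    refine good_final (good_reach (a := G.ax) ?_ h)
    refine ⟨_, ?_, ReflTransGen.refl⟩
    intro u
    simp

theorem sim_restr {α : Type} (G : Sys α) : Restr 3 (sim G) := by
  intro h
  haveI := G.finS
  letI := Fintype.ofFinite G.S
  exact newTab_restr G.tab h

end

end Pool.Agent.N613.ET
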