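import Pool.Agent.N613.ET.Build

namespace Pool.Agent.N613.ET

open Relation Classical

noncomputable section

section
variable {H S : Type} [Fintype S]

/-- How the carrier part `C` of a sentential form of the new system represents the word `z`. -/
def Rel (tab : H → S → Set (List S)) : Ctl H S → List S → List (Ltr H S) → Prop
  | .start, z, C => C = z.map Ltr.x
  | .one h P, z, C => ∃ zs : List (S × List S), (∀ p ∈ zs, p.2 ∈ tab h p.1) ∧
      z = zs.map Prod.fst ∧
      C = zs.flatMap (fun p => if p.1 ∈ P then p.2.map Ltr.y else [Ltr.x p.1])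
  | .two P, z, C => C = z.map (fun c => if c ∈ P then Ltr.x c else Ltr.y c)
  | .three P, z, C => C = z.map (fun c => if c ∈ P then Ltr.z c else Ltr.x c)

/-- The invariant of the sentential forms of the new system. -/
def Inv (tab : H → S → Set (List S)) (R : List S → Prop) (W : List (Ltr H S)) : Prop :=
  Ltr.d ∈ W ∨
  (∃ (v : Ctl H S) (z : List S) (C : List (Ltr H S)) (l : List (Ctl H S)), W = C ++ l.map Ltr.k ∧ R z ∧ Rel tab v z C ∧ ∀ u, u ∈ l ↔ u ≠ v) ∨
  (∃ (z : List S) (K : List (Ltr H S)), W = z.map Ltr.z ++ K ∧ R z ∧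
    ∀ l ∈ K, l = Ltr.d ∨ ∃ u, l = Ltr.k u)

theorem Sub.single {S : Type} {f : S → Set (List S)} {c : S} {y : List S}
    (h : Sub f [c] y) : y ∈ f c := by
  cases h with
  | cons hu h' =>
    cases h'
    simpa using hu

theorem Sub.detMap {S T : Type} {f : S → Set (List S)} {φ φ' : T → S} {z : List T} {y : List S}
    (hf : ∀ a ∈ z, f (φ a) = {[φ' a]}) (h : Sub f (z.map φ) y) : y = z.map φ' := by
  induction z generalizing y with
  | nil =>
    rw [List.map_nil] at h
    cases h
    simp
  | cons a z ih =>
    rw [List.map_cons] at h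
    cases h with
    | cons hu h' =>
      rw [hf a (by simp)] at hu
      simp only [Set.mem_singleton_iff] at hu
      rw [hu, ih (fun b hb => hf b (by simp [hb])) h']
      simp

theorem Sub.ofMap {S T : Type} {f : S → Set (List S)} {φ φ' : T → S} {z : List T}
    (hf : ∀ a ∈ z, [φ' a] ∈ f (φ a)) : Sub f (z.map φ) (z.map φ') := by
  induction z with
  | nil => exact Sub.nil
  | cons a z ih =>
    rw [List.map_cons, List.map_cons]
    exact Sub.cons (u := [φ' a]) (hf a (by simp)) (ih fun b hb => hf b (by simp [hb]))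

theorem Sub.ofPairs {S : Type} {f : S → Set (List S)} {zs : List (S × List S)}
    (h : ∀ p ∈ zs, p.2 ∈ f p.1) : Sub f (zs.map Prod.fst) (zs.flatMap Prod.snd) := by
  induction zs with
  | nil => exact Sub.nil
  | cons p zs ih =>
    rw [List.map_cons, List.flatMap_cons]
    exact Sub.cons (h p (by simp)) (ih fun q hq => h q (by simp [hq]))

theorem Sub.toPairs {S : Type} {f : S → Set (List S)} {x y : List S} (h : Sub f x y) :
    ∃ zs : List (S × List S), (∀ p ∈ zs, p.2 ∈ f p.1) ∧ x = zs.map Prod.fst ∧
      y = zs.flatMap Prod.snd := by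
  induction h with
  | nil => exact ⟨[], by simp, by simp, by simp⟩
  | @cons c u x y hu _ ih =>
    obtain ⟨zs, h1, h2, h3⟩ := ih
    refine ⟨(c, u) :: zs, ?_, by simp [h2], by simp [h3]⟩
    intro p hp
    rcases List.mem_cons.1 hp with rfl | hp
    · exact hu
    · exact h1 p hp

/-- Preservation of the carrier relation by the table of a move from the current state. -/
theorem rel_edge {tab : H → S → Set (List S)} (ht : ∀ h c, (tab h c).Nonempty)
    {R : List S → Prop}
    (hR : ∀ z z' h, R z → Sub (tab h) z z' → R z') {v v' : Ctl H S} {o : Op H S}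
    (hE : Edge v v' o) {z : List S} {C C' : List (Ltr H S)} (hz : R z) (hC : Rel tab v z C)
    (hs : Sub (edgeTab tab v v' o) C C') : ∃ z', R z' ∧ Rel tab v' z' C' := by
  cases hE with
  | s1 h =>
    have hC : C = z.map Ltr.x := hC
    subst hC
    have h1 := hs.detMap (φ' := Ltr.x) (by
      intro a _
      simp [edgeTab, opSub])
    refine ⟨z, hz, z.map (fun c => (c, (ht h c).choose)), ?_, ?_, ?_⟩
    · intro p hp
      obtain ⟨a, _, rfl⟩ := List.mem_map.1 hp
      exact (ht h a).choose_spec
    · simp [Function.comp_def]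
    · rw [h1]
      clear h1 hs hz
      induction z with
      | nil => simp
      | cons a z ih =>
        simp only [List.map_cons, List.flatMap_cons]
        rw [ih rfl]
        simp
  | s2 h P c hc =>
    obtain ⟨zs, h1, h2, h3⟩ := hC
    refine ⟨z, hz, ?_⟩
    suffices hh : ∃ zs' : List (S × List S), (∀ p ∈ zs', p.2 ∈ tab h p.1) ∧
        zs.map Prod.fst = zs'.map Prod.fst ∧
        C' = zs'.flatMap (fun p => if p.1 ∈ insert c P then p.2.map Ltr.y else [Ltr.x p.1]) by
      obtain ⟨zs', e1, e2, e3⟩ := hh
      exact ⟨zs', e1, by rw [h2, e2], e3⟩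
    subst h3
    clear h2 hz
    induction zs generalizing C' with
    | nil =>
      rw [List.flatMap_nil] at hs
      cases hs
      exact ⟨[], by simp, by simp, by simp⟩
    | cons p zs ih =>
      rw [List.flatMap_cons] at hs
      obtain ⟨y₁, y₂, rfl, k1, k2⟩ := hs.split
      obtain ⟨zs', e1, e2, e3⟩ := ih (fun q hq => h1 q (by simp [hq])) k2
      have hp := h1 p (by simp)
      have hloc : ∃ p' : S × List S, p'.2 ∈ tab h p'.1 ∧ p'.1 = p.1 ∧
          y₁ = if p'.1 ∈ insert c P then p'.2.map Ltr.y else [Ltr.x p'.1] := by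
        by_cases hpP : p.1 ∈ P
        · simp only [hpP, if_true] at k1
          have := k1.detMap (φ' := Ltr.y) (by
            intro a _
            simp [edgeTab, opSub])
          exact ⟨p, hp, rfl, by simp [hpP, this]⟩
        · simp only [hpP, if_false] at k1
          have k1 := k1.single
          by_cases hpc : p.1 = c
          · simp only [edgeTab, opSub, hpc, if_true, Set.mem_image] at k1
            obtain ⟨u, hu, rfl⟩ := k1
            exact ⟨(p.1, u), by simpa [hpc] using hu, rfl, by simp [hpc]⟩
          · simp only [edgeTab, opSub, hpc, if_false, Set.mem_singleton_iff] at k1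
            exact ⟨p, hp, rfl, by simp [hpc, hpP, k1]⟩
      obtain ⟨p', f1, f2, f3⟩ := hloc
      refine ⟨p' :: zs', ?_, ?_, ?_⟩
      · intro q hq
        rcases List.mem_cons.1 hq with rfl | hq
        · exact f1
        · exact e1 q hq
      · simp [f2, e2]
      · rw [List.flatMap_cons, ← e3, ← f3]
  | s3 h =>
    obtain ⟨zs, h1, h2, h3⟩ := hC
    have h4 : C = (zs.flatMap Prod.snd).map Ltr.y := by
      rw [h3, List.map_flatMap]
      simp
    rw [h4] at hs
    have h5 := hs.detMap (φ' := Ltr.y) (by
      intro a _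
      simp [edgeTab, opSub])
    refine ⟨zs.flatMap Prod.snd, hR z _ h hz (h2 ▸ Sub.ofPairs h1), ?_⟩
    show C' = _
    rw [h5]
    simp
  | s4 P c hc =>
    have hC : C = z.map (fun c => if c ∈ P then Ltr.x c else Ltr.y c) := hC
    subst hC
    refine ⟨z, hz, ?_⟩
    refine hs.detMap ?_
    intro a _
    by_cases haP : a ∈ P
    · simp [haP, edgeTab, opSub]
    · by_cases hac : a = c
      · simp [hac, hc, edgeTab, opSub]
      · simp [haP, hac, edgeTab, opSub]
  | s5 =>
    have hC : C = z.map (fun c => if c ∈ Finset.univ then Ltr.x c else Ltr.y c) := hC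
    subst hC
    refine ⟨z, hz, ?_⟩
    refine hs.detMap ?_
    intro a _
    simp [edgeTab, opSub]
  | s6 =>
    have hC : C = z.map Ltr.x := hC
    subst hC
    refine ⟨z, hz, ?_⟩
    refine hs.detMap ?_
    intro a _
    simp [edgeTab, opSub]
  | s7 P c hc =>
    have hC : C = z.map (fun c => if c ∈ P then Ltr.z c else Ltr.x c) := hC
    subst hC
    refine ⟨z, hz, ?_⟩
    refine hs.detMap ?_
    intro a _
    by_cases haP : a ∈ P
    · simp [haP, edgeTab, opSub]
    · by_cases hac : a = c
      · simp [hac, hc, edgeTab, opSub]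
      · simp [haP, hac, edgeTab, opSub]

/-- What a table does to the control letters. -/
theorem newTab_k (tab : H → S → Set (List S)) (p : ((Ctl H S × Ctl H S) × Op H S) ⊕ Ctl H S)
    (l : Ltr H S) (hl : l = Ltr.d ∨ ∃ u, l = Ltr.k u) (y : List (Ltr H S))
    (hy : y ∈ newTab tab p l) : ∀ l' ∈ y, l' = Ltr.d ∨ ∃ u, l' = Ltr.k u := by
  cases p with
  | inr v =>
    rcases hl with rfl | ⟨u, rfl⟩
    · simp only [newTab, eraseTab, Set.mem_singleton_iff] at hy
      simp [hy]
    · simp only [newTab, eraseTab] at hy
      split_ifs at hy <;> simp only [Set.mem_singleton_iff] at hy <;> simp [hy]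
  | inl p =>
    simp only [newTab] at hy
    split_ifs at hy
    · rcases hl with rfl | ⟨u, rfl⟩
      · simp only [edgeTab, Set.mem_singleton_iff] at hy
        simp [hy]
      · simp only [edgeTab] at hy
        split_ifs at hy <;> simp only [Set.mem_singleton_iff] at hy <;> simp [hy]
    · simp only [Set.mem_singleton_iff] at hy
      rw [hy]
      simpa using hl

theorem newTab_d (tab : H → S → Set (List S)) (p : ((Ctl H S × Ctl H S) × Op H S) ⊕ Ctl H S) :
    newTab tab p Ltr.d = {[Ltr.d]} := by
  cases p with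
  | inr v => rfl
  | inl p =>
    simp only [newTab]
    split_ifs
    · rfl
    · rfl

theorem newTab_z (tab : H → S → Set (List S)) (p : ((Ctl H S × Ctl H S) × Op H S) ⊕ Ctl H S)
    (c : S) : newTab tab p (Ltr.z c) = {[Ltr.z c]} := by
  cases p with
  | inr v => rfl
  | inl p =>
    simp only [newTab]
    split_ifs
    · rfl
    · rfl

theorem sub_all {f : Ltr H S → Set (List (Ltr H S))}
    (hf : ∀ l, (l = Ltr.d ∨ ∃ u, l = Ltr.k u) → ∀ y ∈ f l, ∀ l' ∈ y, l' = Ltr.d ∨ ∃ u, l' = Ltr.k u)
    {K K' : List (Ltr H S)} (hK : ∀ l ∈ K, l = Ltr.d ∨ ∃ u, l = Ltr.k u) (h : Sub f K K') :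
    ∀ l ∈ K', l = Ltr.d ∨ ∃ u, l = Ltr.k u := by
  induction h with
  | nil => simp
  | @cons c u x y hu _ ih =>
    intro l hl
    rcases List.mem_append.1 hl with hl | hl
    · exact hf c (hK c (by simp)) u hu l hl
    · exact ih (fun l hl => hK l (by simp [hl])) l hl

theorem sub_id {T : Type} {x y : List T} (h : Sub (fun l => ({[l]} : Set (List T))) x y) :
    y = x := by
  have := h.det (g := fun l => [l]) (by simp)
  simpa using this

/-- The invariant is preserved. -/
theorem Inv.step {tab : H → S → Set (List S)} (ht : ∀ h c, (tab h c).Nonempty)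
    {R : List S → Prop} (hR : ∀ z z' h, R z → Sub (tab h) z z' → R z')
    {W W' : List (Ltr H S)} (hI : Inv tab R W)
    {p : ((Ctl H S × Ctl H S) × Op H S) ⊕ Ctl H S} (hs : Sub (newTab tab p) W W') :
    Inv tab R W' := by
  rcases hI with hd | ⟨v, z, C, l, rfl, hz, hC, hl⟩ | ⟨z, K, rfl, hz, hK⟩
  · exact Or.inl (hs.mem hd (newTab_d tab p))
  · cases p with
    | inl p =>
      obtain ⟨⟨v₁, v₁'⟩, o⟩ := p
      by_cases hE : Edge v₁ v₁' o
      swap
      · simp only [newTab, if_neg hE] at hs
        rw [sub_id hs]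
        exact Or.inr (Or.inl ⟨v, z, C, l, rfl, hz, hC, hl⟩)
      simp only [newTab, if_pos hE] at hs
      by_cases hv : v₁ = v
      · subst hv
        obtain ⟨C', K', rfl, h1, h2⟩ := hs.split
        obtain ⟨z', hz', hC'⟩ := rel_edge ht hR hE hz hC h1
        have h3 := h2.detMap (φ' := fun w => Ltr.k (if w = v₁' then v₁ else w)) (by
          intro a ha
          have ha' := (hl a).1 ha
          by_cases hav : a = v₁'
          · simp [edgeTab, hav]
          · simp [edgeTab, hav, ha'])
        refine Or.inr (Or.inl ⟨v₁', z', C', l.map (fun w => if w = v₁' then v₁ else w),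
          ?_, hz', hC', ?_⟩)
        · rw [h3, List.map_map]
          rfl
        · intro u
          rw [List.mem_map]
          constructor
          · rintro ⟨a, ha, rfl⟩
            split_ifs with h
            · exact hE.ne
            · exact h
          · intro hu
            by_cases huv : u = v₁
            · refine ⟨v₁', (hl _).2 hE.ne.symm, ?_⟩
              simp [huv]
            · refine ⟨u, (hl _).2 huv, ?_⟩
              simp [hu]
      · left
        refine hs.mem (c := Ltr.k v₁) ?_ ?_
        · simp only [List.mem_append, List.mem_map]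
          exact Or.inr ⟨v₁, (hl _).2 hv, rfl⟩
        · simp [edgeTab, hE.ne]
    | inr v₁ =>
      by_cases hv : v = Ctl.three Finset.univ
      · subst hv
        have hC : C = z.map (fun c => if c ∈ Finset.univ then Ltr.z c else Ltr.x c) := hC
        obtain ⟨C', K', rfl, h1, h2⟩ := hs.split
        rw [hC] at h1
        have h3 := h1.detMap (φ' := Ltr.z) (by intro a _; simp [newTab, eraseTab])
        refine Or.inr (Or.inr ⟨z, K', by rw [h3], hz, ?_⟩)
        refine sub_all (fun l hl y hy => newTab_k tab _ l hl y hy) ?_ h2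
        intro l' hl'
        obtain ⟨a, _, rfl⟩ := List.mem_map.1 hl'
        exact Or.inr ⟨a, rfl⟩
      · left
        refine hs.mem (c := Ltr.k (.three Finset.univ)) ?_ ?_
        · simp only [List.mem_append, List.mem_map]
          exact Or.inr ⟨_, (hl _).2 (Ne.symm hv), rfl⟩
        · simp [newTab, eraseTab]
  · obtain ⟨C', K', rfl, h1, h2⟩ := hs.split
    have h3 := h1.detMap (φ' := Ltr.z) (by intro a _; exact newTab_z tab p a)
    exact Or.inr (Or.inr ⟨z, K', by rw [h3], hz,
      sub_all (fun l hl y hy => newTab_k tab _ l hl y hy) hK h2⟩)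

/-- A form made of final letters that satisfies the invariant represents a reachable word. -/
theorem Inv.final {tab : H → S → Set (List S)} {R : List S → Prop} {w : List S}
    (hI : Inv tab R (w.map Ltr.z : List (Ltr H S))) : R w := by
  rcases hI with hd | ⟨v, z, C, l, hW, hz, hC, hl⟩ | ⟨z, K, hW, hz, hK⟩
  · obtain ⟨a, _, ha⟩ := List.mem_map.1 hd
    cases ha
  · exfalso
    have : ∃ u : Ctl H S, u ≠ v := by
      by_cases hv : v = Ctl.start
      · exact ⟨.two ∅, by rw [hv]; simp⟩
      · exact ⟨.start, Ne.symm hv⟩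
    obtain ⟨u, hu⟩ := this
    have h1 : (Ltr.k u : Ltr H S) ∈ (w.map Ltr.z : List (Ltr H S)) := by
      rw [hW]
      simp only [List.mem_append, List.mem_map]
      exact Or.inr ⟨u, (hl u).2 hu, rfl⟩
    obtain ⟨a, _, ha⟩ := List.mem_map.1 h1
    cases ha
  · cases K with
    | nil =>
      rw [List.append_nil] at hW
      have : w = z := List.map_injective_iff.2 (fun a b hab => by
        simpa using hab) hW
      rw [this]; exact hz
    | cons a K =>
      exfalso
      have h1 : a ∈ (w.map Ltr.z : List (Ltr H S)) := by rw [hW]; simp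
      obtain ⟨b, _, hb⟩ := List.mem_map.1 h1
      rcases hK a (by simp) with h | ⟨u, h⟩
      · rw [h] at hb; cases hb
      · rw [h] at hb; cases hb

end

end

end Pool.Agent.N613.ET
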